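import Pool.Agent.H11.NZ.Targets

set_option autoImplicit false

namespace Pool.Agent.H6.NZ.NSS

open Pool.Agent.H11.NZ Pool.Agent.H11.NY

theorem pf_nss : T_NSS := by
  intro Q _ _ N hN hbot hperf hmin
  classical
  -- the admissible subgroups
  let S : Set (Subgroup Q) := {A | A ≠ ⊥ ∧ A ≤ N ∧ ∀ x ∈ N, ∀ a ∈ A, x * a * x⁻¹ ∈ A}
  have hNS : N ∈ S := ⟨hbot, le_rfl, fun x hx a ha => N.mul_mem (N.mul_mem hx ha) (N.inv_mem hx)⟩
  obtain ⟨T0, hT0, hT0min⟩ : ∃ A ∈ S, ∀ B ∈ S, Nat.card A ≤ Nat.card B := by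
    have hex : ∃ n : ℕ, ∃ A ∈ S, Nat.card A = n := ⟨_, N, hNS, rfl⟩
    obtain ⟨A, hA, hc⟩ := Nat.find_spec hex
    refine ⟨A, hA, fun B hB => ?_⟩
    rw [hc]
    exact Nat.find_min' hex ⟨B, hB, rfl⟩
  -- the conjugates
  let cj : Q → Subgroup Q → Subgroup Q := fun y A => A.map (MulAut.conj y).toMonoidHom
  have mem_cj : ∀ (y : Q) (A : Subgroup Q) (x : Q), x ∈ cj y A ↔ y⁻¹ * x * y ∈ A := by
    intro y A x
    constructor
    · rintro ⟨a, ha, rfl⟩
      have : y⁻¹ * ((MulAut.conj y).toMonoidHom a) * y = a := by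
        simp [MulAut.conj_apply, mul_assoc]
      rw [this]
      exact ha
    · intro h
      exact ⟨_, h, by simp [MulAut.conj_apply, mul_assoc]⟩
  have cj_one : ∀ A, cj 1 A = A := by
    intro A
    ext x
    rw [mem_cj]
    simp
  have cj_mul : ∀ y z A, cj (y * z) A = cj y (cj z A) := by
    intro y z A
    ext x
    rw [mem_cj, mem_cj, mem_cj]
    simp [mul_assoc]
  have cj_mem : ∀ (y : Q) (A : Subgroup Q) (x : Q), x ∈ A → y * x * y⁻¹ ∈ cj y A := by
    intro y A x hx
    rw [mem_cj]
    simpa [mul_assoc] using hx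
  have cj_card : ∀ (y : Q) (A : Subgroup Q), Nat.card (cj y A) = Nat.card A := by
    intro y A
    exact (Nat.card_congr (A.equivMapOfInjective _ (MulAut.conj y).injective).toEquiv).symm
  have cj_S : ∀ (y : Q) (A : Subgroup Q), A ∈ S → cj y A ∈ S := by
    rintro y A ⟨h1, h2, h3⟩
    refine ⟨fun h => h1 ?_, fun x hx => ?_, fun x hx a ha => ?_⟩
    · rw [Subgroup.eq_bot_iff_forall]
      intro x hx
      have h4 := cj_mem y A x hx
      rw [h, Subgroup.mem_bot] at h4
      have h5 : y * x = y := by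
        rw [mul_inv_eq_one] at h4
        exact h4
      exact mul_eq_left.mp h5
    · rw [mem_cj] at hx
      have h4 := hN.conj_mem _ (h2 hx) y
      simpa [mul_assoc] using h4
    · rw [mem_cj] at ha ⊢
      have h4 := h3 (y⁻¹ * x * y) (by simpa using hN.conj_mem _ hx y⁻¹) _ ha
      simpa [mul_assoc] using h4
  let I : Type := {A : Subgroup Q // ∃ y : Q, A = cj y T0}
  let act : MulAction Q I :=
    { smul := fun y A => ⟨cj y A.1, by
        obtain ⟨z, hz⟩ := A.2
        exact ⟨y * z, by rw [cj_mul, ← hz]⟩⟩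
      one_smul := fun A => Subtype.ext (cj_one A.1)
      mul_smul := fun y z A => Subtype.ext (cj_mul y z A.1) }
  have hI : ∀ A : I, A.1 ∈ S := by
    rintro ⟨A, y, rfl⟩
    exact cj_S y T0 hT0
  have hIc : ∀ A : I, Nat.card A.1 = Nat.card T0 := by
    rintro ⟨A, y, rfl⟩
    exact cj_card y T0
  have eq_of_le : ∀ (B : Subgroup Q) (A : I), B ∈ S → B ≤ A.1 → B = A.1 := by
    intro B A hB hBA
    refine Subgroup.eq_of_le_of_card_ge hBA ?_
    rw [hIc A]
    exact hT0min B hB
  have hcomm : ∀ A B : I, A ≠ B → ∀ x ∈ A.1, ∀ y ∈ B.1, x * y = y * x := by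
    intro A B hAB x hx y hy
    have hinf : A.1 ⊓ B.1 = ⊥ := by
      by_contra hne
      have hS : A.1 ⊓ B.1 ∈ S := ⟨hne, inf_le_left.trans (hI A).2.1, fun z hz a ha =>
        ⟨(hI A).2.2 z hz a ha.1, (hI B).2.2 z hz a ha.2⟩⟩
      have h1 := eq_of_le _ A hS inf_le_left
      have h2 := eq_of_le _ B hS inf_le_right
      exact hAB (Subtype.ext (h1.symm.trans h2))
    have h3 : x * y * x⁻¹ * y⁻¹ ∈ A.1 ⊓ B.1 := by
      constructor
      · have h4 := (hI A).2.2 y ((hI B).2.1 hy) x⁻¹ (A.1.inv_mem hx)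
        have h5 := A.1.mul_mem hx h4
        simpa [mul_assoc] using h5
      · have h4 := (hI B).2.2 x ((hI A).2.1 hx) y hy
        exact B.1.mul_mem h4 (B.1.inv_mem hy)
    rw [hinf, Subgroup.mem_bot] at h3
    rw [mul_inv_eq_one, mul_inv_eq_iff_eq_mul] at h3
    exact h3
  have hsup : (⨆ A : I, A.1) = N := by
    have hnorm : (⨆ A : I, A.1).Normal := by
      refine ⟨fun x hx y => ?_⟩
      have h1 : (⨆ A : I, A.1) ≤ (⨆ A : I, A.1).comap (MulAut.conj y).toMonoidHom := by
        refine iSup_le fun A a ha => ?_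
        rw [Subgroup.mem_comap]
        have h2 : y * a * y⁻¹ ∈ (act.smul y A).1 := cj_mem y A.1 a ha
        exact (le_iSup (fun A : I => A.1) (act.smul y A)) h2
      exact h1 hx
    have hle : (⨆ A : I, A.1) ≤ N := iSup_le fun A => (hI A).2.1
    rcases hmin _ hnorm hle with h | h
    · exfalso
      apply hT0.1
      rw [eq_bot_iff, ← h]
      exact le_iSup (fun A : I => A.1) ⟨T0, 1, (cj_one T0).symm⟩
    · exact h
  have hpre : @MulAction.IsPretransitive Q I act.toSMul := by
    refine @MulAction.IsPretransitive.mk Q I act.toSMul ?_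
    rintro ⟨A, y, rfl⟩ ⟨B, z, rfl⟩
    refine ⟨z * y⁻¹, Subtype.ext ?_⟩
    change cj (z * y⁻¹) (cj y T0) = cj z T0
    rw [← cj_mul, inv_mul_cancel_right]
  refine ⟨I, Fintype.ofFinite I, Classical.decEq I, act, fun A => A.1, ?_, ?_, ?_, ?_, hcomm, ?_,
    hsup⟩
  · exact ⟨⟨T0, 1, (cj_one T0).symm⟩⟩
  · exact hpre
  · intro A
    have hnt : Nontrivial A.1 := by
      rw [Subgroup.nontrivial_iff_ne_bot]
      exact (hI A).1
    refine { hnt with eq_bot_or_eq_top_of_normal := fun H hH => ?_ }
    by_cases hb : H = ⊥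
    · exact Or.inl hb
    · right
      have hle : H.map A.1.subtype ≤ A.1 := by
        rintro x ⟨a, _, rfl⟩
        exact a.2
      have hnorm : N ≤ Subgroup.normalizer ((H.map A.1.subtype : Subgroup Q) : Set Q) := by
        rw [← hsup]
        refine iSup_le fun B b hb' => ?_
        by_cases hAB : A = B
        · subst hAB
          rw [Subgroup.mem_normalizer_iff]
          have key : ∀ c ∈ A.1, ∀ x ∈ H.map A.1.subtype, c * x * c⁻¹ ∈ H.map A.1.subtype := by
            rintro c hc _ ⟨a, ha, rfl⟩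
            exact ⟨⟨c, hc⟩ * a * ⟨c, hc⟩⁻¹, hH.conj_mem a ha ⟨c, hc⟩, rfl⟩
          intro x
          constructor
          · exact key b hb' x
          · intro h
            have := key b⁻¹ (A.1.inv_mem hb') _ h
            simpa [mul_assoc] using this
        · rw [Subgroup.mem_normalizer_iff]
          intro x
          constructor
          · intro h
            have h1 := hcomm A B hAB x (hle h) b hb'
            rw [← h1, mul_inv_cancel_right]
            exact h
          · intro h
            have h1 := hcomm A B hAB _ (hle h) b hb'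
            have h2 : b * x * b⁻¹ = x := by
              have h3 : b * x = b * (b * x * b⁻¹) := by
                rw [← h1, inv_mul_cancel_right]
              have h4 := mul_left_cancel h3
              exact h4.symm
            rw [h2] at h
            exact h
      have hS : H.map A.1.subtype ∈ S := by
        refine ⟨fun h => hb ?_, hle.trans (hI A).2.1, fun x hx a ha => ?_⟩
        · rwa [Subgroup.map_eq_bot_iff_of_injective _ A.1.subtype_injective] at h
        · exact (Subgroup.mem_normalizer_iff.mp (hnorm hx) a).mp ha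
      have h1 := eq_of_le _ A hS hle
      rw [eq_top_iff]
      rintro ⟨a, ha⟩ _
      have h2 : a ∈ H.map A.1.subtype := by
        rw [h1]
        exact ha
      obtain ⟨b, hb2, hb3⟩ := h2
      have h4 : b = ⟨a, ha⟩ := Subtype.ext hb3
      rw [← h4]
      exact hb2
  · intro A
    by_contra hcon
    push Not at hcon
    have hab : ∀ B : I, ∀ x ∈ B.1, ∀ y ∈ B.1, x * y = y * x := by
      intro B x hx y hy
      obtain ⟨z, hz⟩ := hpre.exists_smul_eq A B
      have hz' : cj z A.1 = B.1 := congrArg Subtype.val hz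
      rw [← hz', mem_cj] at hx hy
      have h1 := hcon _ hx _ hy
      have h2 : z * ((z⁻¹ * x * z) * (z⁻¹ * y * z)) * z⁻¹ =
          z * ((z⁻¹ * y * z) * (z⁻¹ * x * z)) * z⁻¹ := by rw [h1]
      simpa [mul_assoc] using h2
    have hcen : N ≤ Subgroup.centralizer (N : Set Q) := by
      have h1 : ∀ (B : I), ∀ x ∈ B.1, N ≤ Subgroup.centralizer {x} := by
        intro B x hx
        rw [← hsup]
        refine iSup_le fun C c hc => ?_
        rw [Subgroup.mem_centralizer_singleton_iff]
        by_cases hBC : B = C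
        · subst hBC
          exact hab B c hc x hx
        · exact (hcomm B C hBC x hx c hc).symm
      rw [← hsup]
      refine iSup_le fun B x hx => ?_
      rw [hsup, Subgroup.mem_centralizer_iff]
      intro y hy
      exact (Subgroup.mem_centralizer_singleton_iff.mp (h1 B x hx hy))
    rw [← Subgroup.commutator_eq_bot_iff_le_centralizer, hperf] at hcen
    exact hbot hcen
  · intro y A x hx
    exact cj_mem y A.1 x hx

end Pool.Agent.H6.NZ.NSS
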